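import Mathlib

/-!
# The half condition for `(n-1)`-dense union-closed families is equivalent to Frankl's conjecture
-/

set_option autoImplicit false

namespace Pool.Agent.Results.MP_848b0a_co.EquivalentToFrankl

open Finset

/-- `F` is a union-closed family over the finite ground set `α` (for `[n]` take `α = Fin n`): all
members are nonempty, the whole ground set is a member, and the union of two members is a member. -/
def IsUnionClosedOver {α : Type} [Fintype α] [DecidableEq α] (F : Finset (Finset α)) : Prop :=
  (∀ A ∈ F, A.Nonempty) ∧ univ ∈ F ∧ ∀ A ∈ F, ∀ B ∈ F, A ∪ B ∈ F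

open Classical in
/-- The closure of `F`: all sets `A` such that `F ∪ {A}` is a union-closed family over the ground
set (in particular `A` is nonempty). -/
noncomputable def closure {α : Type} [Fintype α] [DecidableEq α] (F : Finset (Finset α)) :
    Finset (Finset α) :=
  univ.filter fun A => IsUnionClosedOver (insert A F)

/-- The density of `F`: the least `k` such that the `k`-fold closure of `F` is the family of all
nonempty subsets. -/
noncomputable def density {α : Type} [Fintype α] [DecidableEq α] (F : Finset (Finset α)) : ℕ :=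
  sInf {k | closure^[k] F = univ.filter fun A : Finset α => A.Nonempty}

/-- The half condition: some element lies in at least `⌊|F| / 2⌋` members of `F`. -/
def HalfCondition {α : Type} [DecidableEq α] (F : Finset (Finset α)) : Prop :=
  ∃ i : α, F.card / 2 ≤ (F.filter fun A => i ∈ A).card

/-- The statement of Q1: for every `n ≥ 1`, every `(n-1)`-dense union-closed family over `[n]`
satisfies the half condition. -/
def Q1 : Prop :=
  ∀ n : ℕ, 1 ≤ n → ∀ F : Finset (Finset (Fin n)),
    IsUnionClosedOver F → density F = n - 1 → HalfCondition F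

/-- Frankl's union-closed sets conjecture: every union-closed family of subsets of a finite set,
with at least one nonempty member, has an element lying in at least half of the members. -/
def FranklConjecture : Prop :=
  ∀ (m : ℕ) (G : Finset (Finset (Fin m))),
    (∀ A ∈ G, ∀ B ∈ G, A ∪ B ∈ G) → (∃ A ∈ G, A.Nonempty) →
      ∃ i : Fin m, G.card ≤ 2 * (G.filter fun A => i ∈ A).card

section Density

variable {α : Type} [Fintype α] [DecidableEq α]

theorem mem_closure {F : Finset (Finset α)} (hF : IsUnionClosedOver F) {A : Finset α} :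
    A ∈ closure F ↔ A.Nonempty ∧ ∀ B ∈ F, A ∪ B = A ∨ A ∪ B ∈ F := by
  classical
  unfold closure
  rw [mem_filter]
  constructor
  · rintro ⟨-, h1, h2, h3⟩
    refine ⟨h1 A (mem_insert_self _ _), fun B hB => ?_⟩
    have := h3 A (mem_insert_self _ _) B (mem_insert_of_mem hB)
    rwa [mem_insert] at this
  · rintro ⟨h1, h2⟩
    refine ⟨mem_univ _, ?_, mem_insert_of_mem hF.2.1, ?_⟩
    · intro B hB
      rcases mem_insert.mp hB with rfl | hB
      · exact h1
      · exact hF.1 B hB
    · intro B hB C hC
      rw [mem_insert] at hB hC ⊢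
      rcases hB with rfl | hB
      · rcases hC with rfl | hC
        · exact Or.inl (union_self _)
        · exact h2 C hC
      · rcases hC with rfl | hC
        · rw [union_comm]; exact h2 B hB
        · exact Or.inr (hF.2.2 B hB C hC)

theorem subset_closure {F : Finset (Finset α)} (hF : IsUnionClosedOver F) : F ⊆ closure F := by
  intro A hA
  rw [mem_closure hF]
  exact ⟨hF.1 A hA, fun B hB => Or.inr (hF.2.2 A hA B hB)⟩

theorem closure_unionClosed {F : Finset (Finset α)} (hF : IsUnionClosedOver F) :
    IsUnionClosedOver (closure F) := by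
  refine ⟨fun A hA => ((mem_closure hF).mp hA).1, subset_closure hF hF.2.1, ?_⟩
  intro A hA A' hA'
  rw [mem_closure hF] at hA hA' ⊢
  refine ⟨hA.1.mono subset_union_left, fun B hB => ?_⟩
  rcases hA'.2 B hB with h | h
  · left
    rw [union_assoc, h]
  · rcases hA.2 _ h with h' | h'
    · left
      rw [union_assoc, h']
      apply Subset.antisymm subset_union_left
      apply union_subset (Subset.refl _)
      rw [← h']
      exact subset_union_left.trans subset_union_right
    · right
      rw [union_assoc]; exact h'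

theorem iter_unionClosed {F : Finset (Finset α)} (hF : IsUnionClosedOver F) (k : ℕ) :
    IsUnionClosedOver (closure^[k] F) := by
  induction k with
  | zero => exact hF
  | succ k ih => rw [Function.iterate_succ_apply']; exact closure_unionClosed ih

theorem iter_mono {F : Finset (Finset α)} (hF : IsUnionClosedOver F) (k : ℕ) :
    closure^[k] F ⊆ closure^[k + 1] F := by
  rw [Function.iterate_succ_apply']; exact subset_closure (iter_unionClosed hF k)

/-- All nonempty sets of size at least `n - k` belong to the `k`-fold closure. -/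
theorem mem_iter_of_card {F : Finset (Finset α)} (hF : IsUnionClosedOver F) (k : ℕ) :
    ∀ A : Finset α, A.Nonempty → Fintype.card α ≤ A.card + k → A ∈ closure^[k] F := by
  induction k with
  | zero =>
    intro A _ hA
    have : A = univ := by
      rw [← Finset.card_eq_iff_eq_univ]
      exact le_antisymm (card_le_univ A) (by simpa using hA)
    rw [this]; exact hF.2.1
  | succ k ih =>
    intro A hAne hA
    rw [Function.iterate_succ_apply', mem_closure (iter_unionClosed hF k)]
    refine ⟨hAne, fun B hB => ?_⟩
    by_cases h : A ∪ B = A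
    · exact Or.inl h
    · right
      apply ih _ (hAne.mono subset_union_left)
      have : A.card < (A ∪ B).card :=
        card_lt_card (Finset.ssubset_iff_subset_ne.mpr ⟨subset_union_left, fun h' => h h'.symm⟩)
      omega

variable {H : Finset (Finset α)} {p q : α}

/-- **Density lemma.** If `H` is a union-closed family of nonempty sets avoiding the two points
`p ≠ q`, with largest member the complement of `{p, q}`, then `H ∪ {whole set}` has density
`n - 1`, where `n` is the size of the ground set. -/
theorem density_insert_univ (hpq : p ≠ q) (hH0 : ∀ A ∈ H, A.Nonempty)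
    (hHU : ∀ A ∈ H, ∀ B ∈ H, A ∪ B ∈ H) (hHp : ∀ A ∈ H, p ∉ A) (hHq : ∀ A ∈ H, q ∉ A)
    (hU : univ \ {p, q} ∈ H) :
    IsUnionClosedOver (insert univ H) ∧ density (insert univ H) = Fintype.card α - 1 := by
  classical
  set F := insert univ H with hFdef
  set U : Finset α := univ \ {p, q} with hUdef
  have hUcard : U.card = Fintype.card α - 2 := by
    rw [hUdef, card_sdiff_of_subset (subset_univ _), card_univ, card_pair hpq]
  have hn2 : 2 ≤ Fintype.card α := by
    rw [← card_pair hpq]; exact card_le_univ _
  have hF : IsUnionClosedOver F := by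
    refine ⟨?_, mem_insert_self _ _, ?_⟩
    · intro A hA
      rcases mem_insert.mp hA with rfl | hA
      · exact ⟨p, mem_univ _⟩
      · exact hH0 A hA
    · intro A hA B hB
      rw [hFdef, mem_insert] at hA hB ⊢
      rcases hA with rfl | hA
      · left; simp
      · rcases hB with rfl | hB
        · left; simp
        · exact Or.inr (hHU A hA B hB)
  refine ⟨hF, ?_⟩
  have hsubU : ∀ A : Finset α, p ∉ A → q ∉ A → A ⊆ U := by
    intro A h1 h2 a ha
    rw [hUdef, mem_sdiff, mem_insert, mem_singleton]
    refine ⟨mem_univ _, ?_⟩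
    rintro (rfl | rfl)
    · exact h1 ha
    · exact h2 ha
  -- sets outside `U` absorb subsets of `U`
  have absorb : ∀ k, ∀ C ∈ closure^[k] F, ¬ C ⊆ U → ∀ B ⊆ U, C ∪ B ∈ closure^[k] F := by
    intro k
    induction k with
    | zero =>
      intro C hC hCU B _
      rcases mem_insert.mp hC with rfl | hC
      · simp only [Function.iterate_zero, id_eq]
        have : (univ : Finset α) ∪ B = univ := by simp
        rw [this]; exact hF.2.1
      · exact absurd (hsubU C (hHp C hC) (hHq C hC)) hCU
    | succ k ih =>
      intro C hC hCU B hB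
      rw [Function.iterate_succ_apply', mem_closure (iter_unionClosed hF k)] at hC ⊢
      refine ⟨hC.1.mono subset_union_left, fun D hD => ?_⟩
      rcases hC.2 D hD with h | h
      · left
        rw [union_right_comm, h]
      · right
        rw [union_right_comm]
        exact ih _ h (fun h' => hCU (subset_union_left.trans h')) B hB
  -- large subsets of `U` appear early
  have early : ∀ k, ∀ B ⊆ U, B.Nonempty → Fintype.card α ≤ B.card + 2 + k →
      B ∈ closure^[k] F := by
    intro k
    induction k with
    | zero =>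
      intro B hB _ hc
      have : B = U := eq_of_subset_of_card_le hB (by omega)
      rw [this]
      exact mem_insert_of_mem hU
    | succ k ih =>
      intro B hB hne hc
      rw [Function.iterate_succ_apply', mem_closure (iter_unionClosed hF k)]
      refine ⟨hne, fun C hC => ?_⟩
      by_cases h : B ∪ C = B
      · exact Or.inl h
      right
      by_cases hCU : C ⊆ U
      · apply ih _ (union_subset hB hCU) (hne.mono subset_union_left)
        have : B.card < (B ∪ C).card :=
          card_lt_card (Finset.ssubset_iff_subset_ne.mpr ⟨subset_union_left, fun h' => h h'.symm⟩)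
        omega
      · rw [union_comm]
        exact absorb k C hC hCU B hB
  -- sets containing `p` but not `q` appear late
  have late : ∀ k, ∀ A ∈ closure^[k] F, p ∈ A → q ∉ A → Fintype.card α ≤ A.card + k := by
    intro k
    induction k with
    | zero =>
      intro A hA hp hq
      rcases mem_insert.mp hA with rfl | hA
      · exact absurd (mem_univ q) hq
      · exact absurd hp (hHp A hA)
    | succ k ih =>
      intro A hA hp hq
      by_contra hlt
      push Not at hlt
      rw [Function.iterate_succ_apply', mem_closure (iter_unionClosed hF k)] at hA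
      have hA0 : A.erase p ⊆ U :=
        hsubU _ (notMem_erase _ _) (fun h => hq (mem_of_mem_erase h))
      have hAcard : (A.erase p).card = A.card - 1 := card_erase_of_mem hp
      have hApos : 0 < A.card := card_pos.mpr ⟨p, hp⟩
      obtain ⟨B, hB1, hB2, hB3⟩ := exists_subsuperset_card_eq hA0
        (n := Fintype.card α - 2 - k) (by omega) (by omega)
      have hBne : B.Nonempty := card_pos.mp (by omega)
      have hBmem := early k B hB2 hBne (by omega)
      have hpB : p ∉ B := fun h => by
        have := hB2 h
        rw [hUdef] at this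
        simp at this
      have hqB : q ∉ B := fun h => by
        have := hB2 h
        rw [hUdef] at this
        simp at this
      have hAB : A ∪ B = insert p B := by
        apply Subset.antisymm
        · apply union_subset _ (subset_insert _ _)
          intro a ha
          by_cases hap : a = p
          · rw [hap]; exact mem_insert_self _ _
          · exact mem_insert_of_mem (hB1 (mem_erase.mpr ⟨hap, ha⟩))
        · apply insert_subset
          · exact mem_union_left _ hp
          · exact subset_union_right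
      have hcardAB : (A ∪ B).card = Fintype.card α - 2 - k + 1 := by
        rw [hAB, card_insert_of_notMem hpB, hB3]
      rcases hA.2 B hBmem with h | h
      · rw [h] at hcardAB
        omega
      · have := ih _ h (mem_union_left _ hp) (by
          rw [hAB, mem_insert]
          rintro (h' | h')
          · exact hpq h'.symm
          · exact hqB h')
        omega
  -- conclusion
  have hmem : Fintype.card α - 1 ∈
      {k | closure^[k] F = univ.filter fun A : Finset α => A.Nonempty} := by
    rw [Set.mem_ofPred_eq]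
    ext A
    rw [mem_filter]
    constructor
    · intro hA
      exact ⟨mem_univ _, (iter_unionClosed hF _).1 A hA⟩
    · rintro ⟨-, hA⟩
      apply mem_iter_of_card hF _ A hA
      have : 0 < A.card := card_pos.mpr hA
      omega
  apply le_antisymm (Nat.sInf_le hmem)
  apply le_csInf ⟨_, hmem⟩
  intro k hk
  rw [Set.mem_ofPred_eq] at hk
  have h1 : ({p} : Finset α) ∈ closure^[k] F := by
    rw [hk, mem_filter]
    exact ⟨mem_univ _, singleton_nonempty p⟩
  have := late k {p} h1 (mem_singleton_self p) (fun h => hpq (mem_singleton.mp h).symm)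
  rw [card_singleton] at this
  omega

end Density

section Cube

variable {m : ℕ}

/-- The subset of `Fin m × Fin 3` with slices `s.1`, `s.2.1`, `s.2.2`. -/
def glue (s : Finset (Fin m) × Finset (Fin m) × Finset (Fin m)) : Finset (Fin m × Fin 3) :=
  univ.filter fun x => (x.2 = 0 ∧ x.1 ∈ s.1) ∨ (x.2 = 1 ∧ x.1 ∈ s.2.1) ∨ (x.2 = 2 ∧ x.1 ∈ s.2.2)

theorem mem_glue0 (s : Finset (Fin m) × Finset (Fin m) × Finset (Fin m)) (a : Fin m) :
    (a, (0 : Fin 3)) ∈ glue s ↔ a ∈ s.1 := by
  simp [glue]

theorem mem_glue1 (s : Finset (Fin m) × Finset (Fin m) × Finset (Fin m)) (a : Fin m) :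
    (a, (1 : Fin 3)) ∈ glue s ↔ a ∈ s.2.1 := by
  simp [glue]

theorem mem_glue2 (s : Finset (Fin m) × Finset (Fin m) × Finset (Fin m)) (a : Fin m) :
    (a, (2 : Fin 3)) ∈ glue s ↔ a ∈ s.2.2 := by
  simp [glue]

theorem glue_injective : Function.Injective (glue (m := m)) := by
  intro s t h
  have h0 : s.1 = t.1 := by
    ext a; rw [← mem_glue0 s, h, mem_glue0]
  have h1 : s.2.1 = t.2.1 := by
    ext a; rw [← mem_glue1 s, h, mem_glue1]
  have h2 : s.2.2 = t.2.2 := by
    ext a; rw [← mem_glue2 s, h, mem_glue2]
  exact Prod.ext h0 (Prod.ext h1 h2)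

theorem glue_union (s t : Finset (Fin m) × Finset (Fin m) × Finset (Fin m)) :
    glue s ∪ glue t = glue (s.1 ∪ t.1, s.2.1 ∪ t.2.1, s.2.2 ∪ t.2.2) := by
  ext ⟨a, j⟩
  rw [mem_union]
  fin_cases j
  · change (a, (0 : Fin 3)) ∈ _ ∨ (a, (0 : Fin 3)) ∈ _ ↔ (a, (0 : Fin 3)) ∈ _
    rw [mem_glue0, mem_glue0, mem_glue0, mem_union]
  · change (a, (1 : Fin 3)) ∈ _ ∨ (a, (1 : Fin 3)) ∈ _ ↔ (a, (1 : Fin 3)) ∈ _
    rw [mem_glue1, mem_glue1, mem_glue1, mem_union]
  · change (a, (2 : Fin 3)) ∈ _ ∨ (a, (2 : Fin 3)) ∈ _ ↔ (a, (2 : Fin 3)) ∈ _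
    rw [mem_glue2, mem_glue2, mem_glue2, mem_union]

/-- Frankl's conjecture for families containing the empty set and the whole ground set follows
from Q1. -/
theorem frankl_of_Q1_aux (hQ : Q1) (G : Finset (Finset (Fin m))) (hm : 0 < m)
    (hG : ∀ A ∈ G, ∀ B ∈ G, A ∪ B ∈ G) (h0 : ∅ ∈ G) (h1 : univ ∈ G) :
    ∃ i : Fin m, G.card ≤ 2 * (G.filter fun A => i ∈ A).card := by
  classical
  -- the cube of `G`, without the empty set, on `Fin (m * 3 + 2)`
  let ι : Fin m × Fin 3 ↪ Fin (m * 3 + 2) :=
    finProdFinEquiv.toEmbedding.trans (Fin.castAddEmb 2)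
  let p : Fin (m * 3 + 2) := Fin.natAdd (m * 3) 0
  let q : Fin (m * 3 + 2) := Fin.natAdd (m * 3) 1
  have hpq : p ≠ q := by
    intro h
    have := congrArg Fin.val h
    simp [p, q] at this
  have hι : ∀ x, (ι x : ℕ) < m * 3 := fun x => (finProdFinEquiv x).isLt
  have hιp : ∀ x, ι x ≠ p := by
    intro x h
    have h1 := hι x
    rw [h] at h1
    simp [p] at h1
  have hιq : ∀ x, ι x ≠ q := by
    intro x h
    have h1 := hι x
    rw [h] at h1
    simp [q] at h1
  have hιsurj : ∀ y, y ≠ p → y ≠ q → ∃ x, ι x = y := by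
    intro y hp hq
    have hy : (y : ℕ) < m * 3 := by
      by_contra hge
      push Not at hge
      have h2 := y.isLt
      rcases Nat.lt_or_ge (y : ℕ) (m * 3 + 1) with h3 | h3
      · exact hp (Fin.ext (by simp [p]; omega))
      · exact hq (Fin.ext (by simp [q]; omega))
    refine ⟨finProdFinEquiv.symm ⟨y, hy⟩, ?_⟩
    apply Fin.ext
    change ((finProdFinEquiv (finProdFinEquiv.symm ⟨(y : ℕ), hy⟩) : Fin (m * 3)) : ℕ) = y
    rw [Equiv.apply_symm_apply]
  let φ : Finset (Fin m) × Finset (Fin m) × Finset (Fin m) → Finset (Fin (m * 3 + 2)) :=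
    fun s => (glue s).map ι
  have hφinj : Function.Injective φ := fun s t h => glue_injective (map_injective ι h)
  let T : Finset (Finset (Fin m) × Finset (Fin m) × Finset (Fin m)) := G ×ˢ G ×ˢ G
  have hT : T.card = G.card ^ 3 := by
    simp only [T, card_product]; ring
  have hglue0 : glue ((∅, ∅, ∅) : Finset (Fin m) × Finset (Fin m) × Finset (Fin m)) = ∅ := by
    ext ⟨a, j⟩; simp [glue]
  have hφ0 : φ (∅, ∅, ∅) = ∅ := by
    simp only [φ, hglue0, map_empty]
  let H : Finset (Finset (Fin (m * 3 + 2))) := (T.erase (∅, ∅, ∅)).image φ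
  have memH : ∀ A, A ∈ H ↔ ∃ s ∈ T, s ≠ (∅, ∅, ∅) ∧ φ s = A := by
    intro A
    simp only [H, mem_image, mem_erase]
    constructor
    · rintro ⟨s, ⟨h1, h2⟩, h3⟩; exact ⟨s, h2, h1, h3⟩
    · rintro ⟨s, h1, h2, h3⟩; exact ⟨s, ⟨h2, h1⟩, h3⟩
  have memT : ∀ s, s ∈ T ↔ s.1 ∈ G ∧ s.2.1 ∈ G ∧ s.2.2 ∈ G := by
    intro s; simp only [T, mem_product]
  have hne : ∀ s, s ≠ ((∅, ∅, ∅) : Finset (Fin m) × Finset (Fin m) × Finset (Fin m)) →
      (φ s).Nonempty := by
    intro s hs
    rw [nonempty_iff_ne_empty]
    intro h
    apply hs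
    apply hφinj
    rw [h, hφ0]
  have hH0 : ∀ A ∈ H, A.Nonempty := by
    intro A hA
    obtain ⟨s, _, hs, rfl⟩ := (memH A).mp hA
    exact hne s hs
  have hHU : ∀ A ∈ H, ∀ B ∈ H, A ∪ B ∈ H := by
    intro A hA B hB
    obtain ⟨s, hsT, hs, rfl⟩ := (memH A).mp hA
    obtain ⟨t, htT, ht, rfl⟩ := (memH B).mp hB
    rw [memT] at hsT htT
    have hu : φ s ∪ φ t = φ (s.1 ∪ t.1, s.2.1 ∪ t.2.1, s.2.2 ∪ t.2.2) := by
      simp only [φ]
      rw [← map_union, glue_union]
    rw [memH]
    refine ⟨(s.1 ∪ t.1, s.2.1 ∪ t.2.1, s.2.2 ∪ t.2.2), ?_, ?_, hu.symm⟩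
    · rw [memT]
      exact ⟨hG _ hsT.1 _ htT.1, hG _ hsT.2.1 _ htT.2.1, hG _ hsT.2.2 _ htT.2.2⟩
    · intro h
      have h2 := (hne s hs).mono (subset_union_left : φ s ⊆ φ s ∪ φ t)
      rw [hu, h, hφ0] at h2
      exact not_nonempty_empty h2
  have hHp : ∀ A ∈ H, p ∉ A := by
    intro A hA hp
    obtain ⟨s, _, _, rfl⟩ := (memH A).mp hA
    obtain ⟨x, _, hx⟩ := mem_map.mp hp
    exact hιp x hx
  have hHq : ∀ A ∈ H, q ∉ A := by
    intro A hA hp
    obtain ⟨s, _, _, rfl⟩ := (memH A).mp hA
    obtain ⟨x, _, hx⟩ := mem_map.mp hp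
    exact hιq x hx
  have hUmem : univ \ {p, q} ∈ H := by
    rw [memH]
    refine ⟨(univ, univ, univ), (memT _).mpr ⟨h1, h1, h1⟩, ?_, ?_⟩
    · intro h
      have h2 := congrArg (fun s : Finset (Fin m) × Finset (Fin m) × Finset (Fin m) => s.1) h
      have h3 : (⟨0, hm⟩ : Fin m) ∈ (univ : Finset (Fin m)) := mem_univ _
      simp only at h2
      rw [h2] at h3
      exact notMem_empty _ h3
    · ext y
      simp only [φ, mem_map, mem_sdiff, mem_univ, true_and, mem_insert, mem_singleton]
      constructor
      · rintro ⟨x, _, rfl⟩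
        rintro (h | h)
        · exact hιp x h
        · exact hιq x h
      · intro h
        push Not at h
        obtain ⟨x, hx⟩ := hιsurj y h.1 h.2
        refine ⟨x, ?_, hx⟩
        obtain ⟨a, j⟩ := x
        fin_cases j
        · exact (mem_glue0 _ a).mpr (mem_univ _)
        · exact (mem_glue1 _ a).mpr (mem_univ _)
        · exact (mem_glue2 _ a).mpr (mem_univ _)
  obtain ⟨hFuc, hFd⟩ := density_insert_univ hpq hH0 hHU hHp hHq hUmem
  rw [Fintype.card_fin] at hFd
  obtain ⟨i, hi⟩ := hQ (m * 3 + 2) (by omega) _ hFuc hFd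
  -- cardinalities
  have hunivH : (univ : Finset (Fin (m * 3 + 2))) ∉ H := fun h => hHp _ h (mem_univ _)
  have hHcard : H.card = G.card ^ 3 - 1 := by
    simp only [H]
    rw [card_image_of_injective _ hφinj, card_erase_of_mem ((memT _).mpr ⟨h0, h0, h0⟩), hT]
  have hGcard : 2 ≤ G.card := by
    have : ({∅, univ} : Finset (Finset (Fin m))) ⊆ G := by
      intro A hA
      rcases mem_insert.mp hA with rfl | hA
      · exact h0
      · rw [mem_singleton.mp hA]; exact h1
    have h2 : (∅ : Finset (Fin m)) ≠ univ := by
      intro h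
      have h3 : (⟨0, hm⟩ : Fin m) ∈ (univ : Finset (Fin m)) := mem_univ _
      rw [← h] at h3
      exact notMem_empty _ h3
    rw [← card_pair h2]
    exact card_le_card this
  set g := G.card with hg
  have hg3 : 8 ≤ g ^ 3 := by
    calc 8 = 2 ^ 3 := by norm_num
      _ ≤ g ^ 3 := Nat.pow_le_pow_left hGcard 3
  have hFcard : (insert univ H).card = g ^ 3 := by
    rw [card_insert_of_notMem hunivH, hHcard]
    omega
  rw [hFcard] at hi
  -- degrees
  have hdeg : ((insert univ H).filter fun A => i ∈ A).card ≤ (H.filter fun A => i ∈ A).card + 1 := by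
    rw [filter_insert]
    split_ifs
    · exact card_insert_le _ _
    · exact Nat.le_succ _
  by_cases hip : i = p
  · have : (H.filter fun A => i ∈ A).card = 0 := by
      rw [card_eq_zero, filter_eq_empty_iff]
      intro A hA
      rw [hip]; exact hHp A hA
    omega
  by_cases hiq : i = q
  · have : (H.filter fun A => i ∈ A).card = 0 := by
      rw [card_eq_zero, filter_eq_empty_iff]
      intro A hA
      rw [hiq]; exact hHq A hA
    omega
  obtain ⟨⟨a, j⟩, rfl⟩ := hιsurj i hip hiq
  refine ⟨a, ?_⟩
  set d := (G.filter fun A => a ∈ A).card with hd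
  have hdH : (H.filter fun A => ι (a, j) ∈ A).card ≤ d * g ^ 2 := by
    have hsub : (H.filter fun A => ι (a, j) ∈ A) ⊆
        (T.filter fun s => (a, j) ∈ glue s).image φ := by
      intro A hA
      rw [mem_filter] at hA
      obtain ⟨s, hsT, _, rfl⟩ := (memH A).mp hA.1
      rw [mem_image]
      refine ⟨s, mem_filter.mpr ⟨hsT, ?_⟩, rfl⟩
      have := hA.2
      simp only [φ] at this
      rwa [mem_map' ι] at this
    refine (card_le_card hsub).trans (card_image_le.trans ?_)
    fin_cases j
    · have h2 : (T.filter fun s => (a, (0 : Fin 3)) ∈ glue s) ⊆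
          (G.filter fun A => a ∈ A) ×ˢ G ×ˢ G := by
        intro s hs
        rw [mem_filter, memT, mem_glue0] at hs
        simp only [mem_product, mem_filter]
        exact ⟨⟨hs.1.1, hs.2⟩, hs.1.2⟩
      refine (card_le_card h2).trans (le_of_eq ?_)
      rw [card_product, card_product]; ring
    · have h2 : (T.filter fun s => (a, (1 : Fin 3)) ∈ glue s) ⊆
          G ×ˢ (G.filter fun A => a ∈ A) ×ˢ G := by
        intro s hs
        rw [mem_filter, memT, mem_glue1] at hs
        simp only [mem_product, mem_filter]
        exact ⟨hs.1.1, ⟨hs.1.2.1, hs.2⟩, hs.1.2.2⟩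
      refine (card_le_card h2).trans (le_of_eq ?_)
      rw [card_product, card_product]; ring
    · have h2 : (T.filter fun s => (a, (2 : Fin 3)) ∈ glue s) ⊆
          G ×ˢ G ×ˢ (G.filter fun A => a ∈ A) := by
        intro s hs
        rw [mem_filter, memT, mem_glue2] at hs
        simp only [mem_product, mem_filter]
        exact ⟨hs.1.1, hs.1.2.1, hs.1.2.2, hs.2⟩
      refine (card_le_card h2).trans (le_of_eq ?_)
      rw [card_product, card_product]; ring
  by_contra hlt
  push Not at hlt
  have h2 : g ^ 3 / 2 ≤ d * g ^ 2 + 1 := hi.trans (hdeg.trans (Nat.add_le_add_right hdH 1))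
  have h3 : g ^ 3 ≤ 2 * (d * g ^ 2) + 3 := by omega
  have h4 : 2 * d + 1 ≤ g := hlt
  have h5 : (2 * d + 1) * g ^ 2 ≤ g * g ^ 2 := Nat.mul_le_mul_right _ h4
  have h6 : g * g ^ 2 = g ^ 3 := by ring
  have h7 : (2 * d + 1) * g ^ 2 = 2 * (d * g ^ 2) + g ^ 2 := by ring
  have h8 : 4 ≤ g ^ 2 := by
    calc 4 = 2 ^ 2 := by norm_num
      _ ≤ g ^ 2 := Nat.pow_le_pow_left hGcard 2
  omega

end Cube

/-- Q1 (every `(n-1)`-dense union-closed family over `[n]` satisfies the half condition, for all
`n ≥ 1`) is equivalent to Frankl's union-closed sets conjecture for all finite union-closed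
families. -/
theorem result : Q1 ↔ FranklConjecture := by
  classical
  constructor
  · intro hQ m G hG ⟨A₀, hA₀, hA₀ne⟩
    -- the union of all members
    set U : Finset (Fin m) := G.sup id with hU
    have hUG : U ∈ G := by
      have h1 : ∀ S : Finset (Finset (Fin m)), S ⊆ G → S.Nonempty → S.sup id ∈ G := by
        intro S
        induction S using Finset.induction_on with
        | empty => intro _ h; exact absurd h not_nonempty_empty
        | insert a S ha ih =>
          intro hS _
          rw [sup_insert, id_eq]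
          rcases S.eq_empty_or_nonempty with rfl | hne
          · simp only [sup_empty, bot_eq_empty, sup_eq_union, union_empty]
            exact hS (mem_insert_self _ _)
          · exact hG _ (hS (mem_insert_self _ _)) _
              (ih (fun x hx => hS (mem_insert_of_mem hx)) hne)
      exact h1 G (Subset.refl _) ⟨A₀, hA₀⟩
    have hAU : ∀ A ∈ G, A ⊆ U := fun A hA => le_sup (f := id) hA
    obtain ⟨a₀, ha₀⟩ := hA₀ne
    have ha₀U : a₀ ∈ U := hAU A₀ hA₀ ha₀
    have hm : 0 < m := lt_of_le_of_lt (Nat.zero_le _) a₀.isLt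
    -- retract the ground set onto `U`
    let φ : Fin m → Fin m := fun a => if a ∈ U then a else a₀
    have hφU : ∀ a, φ a ∈ U := by
      intro a; simp only [φ]; split_ifs with h
      · exact h
      · exact ha₀U
    have hφid : ∀ a ∈ U, φ a = a := fun a ha => by simp only [φ, if_pos ha]
    let ψ : Finset (Fin m) → Finset (Fin m) := fun A => univ.filter fun a => φ a ∈ A
    have hψ : ∀ A a, a ∈ ψ A ↔ φ a ∈ A := fun A a => by simp [ψ]
    have hψinj : Set.InjOn ψ G := by
      intro A hA B hB h
      ext a
      by_cases haU : a ∈ U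
      · rw [← hφid a haU, ← hψ A a, h, hψ B a]
      · exact ⟨fun h' => absurd (hAU A hA h') haU, fun h' => absurd (hAU B hB h') haU⟩
    let G' : Finset (Finset (Fin m)) := insert ∅ (G.image ψ)
    have hG' : ∀ A ∈ G', ∀ B ∈ G', A ∪ B ∈ G' := by
      intro A hA B hB
      simp only [G'] at hA hB ⊢
      rw [mem_insert, mem_image] at hA hB
      rcases hA with rfl | ⟨A', hA', rfl⟩
      · rw [empty_union, mem_insert, mem_image]; exact hB
      · rcases hB with rfl | ⟨B', hB', rfl⟩
        · rw [union_empty, mem_insert, mem_image]; exact Or.inr ⟨A', hA', rfl⟩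
        · rw [mem_insert, mem_image]
          right
          refine ⟨A' ∪ B', hG A' hA' B' hB', ?_⟩
          ext a
          rw [hψ, mem_union, mem_union, hψ, hψ]
    have h0 : ∅ ∈ G' := mem_insert_self _ _
    have h1 : univ ∈ G' := by
      simp only [G']
      rw [mem_insert, mem_image]
      right
      refine ⟨U, hUG, ?_⟩
      ext a
      rw [hψ]
      exact ⟨fun _ => mem_univ _, fun _ => hφU a⟩
    obtain ⟨i, hi⟩ := frankl_of_Q1_aux hQ G' hm hG' h0 h1
    refine ⟨φ i, ?_⟩
    have h2 : G.card ≤ G'.card := by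
      rw [← card_image_of_injOn hψinj]
      exact card_le_card (subset_insert _ _)
    have h3 : (G'.filter fun A => i ∈ A).card ≤ (G.filter fun A => φ i ∈ A).card := by
      have hsub : (G'.filter fun A => i ∈ A) ⊆ (G.filter fun A => φ i ∈ A).image ψ := by
        intro A hA
        rw [mem_filter] at hA
        obtain ⟨hA1, hA2⟩ := hA
        simp only [G'] at hA1
        rw [mem_insert, mem_image] at hA1
        rcases hA1 with rfl | ⟨B, hB, rfl⟩
        · exact absurd hA2 (notMem_empty _)
        · rw [mem_image]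
          exact ⟨B, mem_filter.mpr ⟨hB, (hψ B i).mp hA2⟩, rfl⟩
      exact (card_le_card hsub).trans card_image_le
    omega
  · intro hFr n _ F hF _
    have hne : (univ : Finset (Fin n)).Nonempty := hF.1 _ hF.2.1
    obtain ⟨i, hi⟩ := hFr n F hF.2.2 ⟨univ, hF.2.1, hne⟩
    exact ⟨i, by omega⟩

end Pool.Agent.Results.MP_848b0a_co.EquivalentToFrankl
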