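import Pool.Agent.Results.MP_848b0a_co.EquivalentToFrankl

/-!
# Union-closed families of density at most two satisfy Frankl's conjecture

The averaging argument works for all families of density at most `2` and fails for density `3`.
-/

set_option autoImplicit false

namespace Pool.Agent.Results.MP_848b0a_co.TwoDense

open Finset Pool.Agent.Results.MP_848b0a_co.EquivalentToFrankl

section General

variable {α : Type} [Fintype α] [DecidableEq α]

/-- The edge boundary of a proper nonempty down-set of the cube over `C` has at least
`|univ \ C|` edges. -/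
theorem boundary_ge (D : Finset (Finset α)) (C : Finset α) (hC : C ∈ D)
    (hdown : ∀ A ∈ D, ∀ B, C ⊆ B → B ⊆ A → B ∈ D) (hsub : ∀ A ∈ D, C ⊆ A)
    (huniv : univ ∉ D) :
    (univ \ C).card ≤
      ((D ×ˢ (univ : Finset α)).filter fun p => p.2 ∉ p.1 ∧ insert p.2 p.1 ∉ D).card := by
  classical
  obtain ⟨A, hA, hmax⟩ := exists_max_image D (fun A => A.card) ⟨C, hC⟩
  have hins : ∀ i, i ∉ A → insert i A ∉ D := by
    intro i hi h
    have h1 := hmax _ h
    rw [card_insert_of_notMem hi] at h1
    omega
  have hAne : A ≠ univ := fun h => huniv (h ▸ hA)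
  obtain ⟨y, hy⟩ : ∃ y, y ∉ A := by
    by_contra hcon
    push Not at hcon
    exact hAne (eq_univ_iff_forall.mpr hcon)
  let f : α → Finset α × α := fun z =>
    if z ∈ A then
      (if insert y (A.erase z) ∈ D then (insert y (A.erase z), z) else (A.erase z, y))
    else (A, z)
  apply card_le_card_of_injOn f
  · intro z hz
    rw [mem_coe, mem_sdiff] at hz
    have hzC := hz.2
    rw [mem_coe, mem_filter, mem_product]
    by_cases hzA : z ∈ A
    · have hCe : C ⊆ A.erase z := by
        intro c hc
        refine mem_erase.mpr ⟨fun h => hzC (h ▸ hc), hsub A hA hc⟩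
      by_cases hD : insert y (A.erase z) ∈ D
      · have hf : f z = (insert y (A.erase z), z) := by simp only [f, if_pos hzA, if_pos hD]
        rw [hf]
        refine ⟨⟨hD, mem_univ _⟩, ?_, ?_⟩
        · change z ∉ insert y (A.erase z)
          rw [mem_insert, not_or]
          exact ⟨fun h => hy (h ▸ hzA), notMem_erase _ _⟩
        · change insert z (insert y (A.erase z)) ∉ D
          rw [insert_comm, insert_erase hzA]
          exact hins y hy
      · have hf : f z = (A.erase z, y) := by simp only [f, if_pos hzA, if_neg hD]
        rw [hf]
        refine ⟨⟨hdown A hA _ hCe (erase_subset _ _), mem_univ _⟩, ?_, hD⟩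
        change y ∉ A.erase z
        exact fun h => hy (mem_of_mem_erase h)
    · have hf : f z = (A, z) := by simp only [f, if_neg hzA]
      rw [hf]
      exact ⟨⟨hA, mem_univ _⟩, hzA, hins z hzA⟩
  · intro z _ w _ hzw
    -- recover the point from its value
    by_cases hzA : z ∈ A
    · by_cases hDz : insert y (A.erase z) ∈ D
      · have hfz : f z = (insert y (A.erase z), z) := by simp only [f, if_pos hzA, if_pos hDz]
        by_cases hwA : w ∈ A
        · by_cases hDw : insert y (A.erase w) ∈ D
          · have hfw : f w = (insert y (A.erase w), w) := by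
              simp only [f, if_pos hwA, if_pos hDw]
            rw [hfz, hfw] at hzw
            exact (Prod.mk.inj hzw).2
          · have hfw : f w = (A.erase w, y) := by simp only [f, if_pos hwA, if_neg hDw]
            rw [hfz, hfw] at hzw
            exact absurd ((Prod.mk.inj hzw).2 ▸ hzA) hy
        · have hfw : f w = (A, w) := by simp only [f, if_neg hwA]
          rw [hfz, hfw] at hzw
          exact (Prod.mk.inj hzw).2
      · have hfz : f z = (A.erase z, y) := by simp only [f, if_pos hzA, if_neg hDz]
        by_cases hwA : w ∈ A
        · by_cases hDw : insert y (A.erase w) ∈ D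
          · have hfw : f w = (insert y (A.erase w), w) := by
              simp only [f, if_pos hwA, if_pos hDw]
            rw [hfz, hfw] at hzw
            exact absurd ((Prod.mk.inj hzw).2.symm ▸ hwA) hy
          · have hfw : f w = (A.erase w, y) := by simp only [f, if_pos hwA, if_neg hDw]
            rw [hfz, hfw] at hzw
            have h1 := (Prod.mk.inj hzw).1
            by_contra hne
            have h2 : z ∈ A.erase w := mem_erase.mpr ⟨hne, hzA⟩
            rw [← h1] at h2
            exact notMem_erase _ _ h2
        · have hfw : f w = (A, w) := by simp only [f, if_neg hwA]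
          rw [hfz, hfw] at hzw
          have h1 := (Prod.mk.inj hzw).1
          exact absurd (h1 ▸ hzA) (notMem_erase _ _)
    · have hfz : f z = (A, z) := by simp only [f, if_neg hzA]
      by_cases hwA : w ∈ A
      · by_cases hDw : insert y (A.erase w) ∈ D
        · have hfw : f w = (insert y (A.erase w), w) := by
            simp only [f, if_pos hwA, if_pos hDw]
          rw [hfz, hfw] at hzw
          exact (Prod.mk.inj hzw).2
        · have hfw : f w = (A.erase w, y) := by simp only [f, if_pos hwA, if_neg hDw]
          rw [hfz, hfw] at hzw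
          have h1 := (Prod.mk.inj hzw).1
          exact absurd (h1.symm ▸ hwA) (notMem_erase _ _)
      · have hfw : f w = (A, w) := by simp only [f, if_neg hwA]
        rw [hfz, hfw] at hzw
        exact (Prod.mk.inj hzw).2

/-- Edges going up from the complement of `F` into `F`. -/
def good (F : Finset (Finset α)) : Finset (Finset α × α) :=
  univ.filter fun p => p.2 ∉ p.1 ∧ p.1 ∉ F ∧ insert p.2 p.1 ∈ F

/-- Edges going up from `F` to its complement. -/
def bad (F : Finset (Finset α)) : Finset (Finset α × α) :=
  univ.filter fun p => p.2 ∉ p.1 ∧ p.1 ∈ F ∧ insert p.2 p.1 ∉ F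

theorem sum_card_eq (F : Finset (Finset α)) :
    2 * ∑ A ∈ F, A.card + (bad F).card = Fintype.card α * F.card + (good F).card := by
  classical
  set X : Finset (Finset α × α) := univ.filter fun p => p.2 ∉ p.1 ∧ insert p.2 p.1 ∈ F with hX
  set Y : Finset (Finset α × α) := univ.filter fun p => p.2 ∉ p.1 ∧ p.1 ∈ F with hY
  set Z : Finset (Finset α × α) :=
    univ.filter fun p => p.2 ∉ p.1 ∧ p.1 ∈ F ∧ insert p.2 p.1 ∈ F with hZ
  have h1 : X.card = ∑ A ∈ F, A.card := by
    rw [← card_sigma]
    symm
    apply card_bij (fun (s : Σ _ : Finset α, α) _ => (s.1.erase s.2, s.2))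
    · rintro ⟨A, i⟩ hs
      rw [mem_sigma] at hs
      rw [hX, mem_filter]
      refine ⟨mem_univ _, notMem_erase _ _, ?_⟩
      change insert i (A.erase i) ∈ F
      rw [insert_erase hs.2]
      exact hs.1
    · rintro ⟨A, i⟩ hs ⟨B, j⟩ ht h
      rw [mem_sigma] at hs ht
      have h2 := (Prod.mk.inj h).2
      simp only at h2
      subst h2
      have h3 := (Prod.mk.inj h).1
      simp only at h3
      have hs2 : i ∈ A := hs.2
      have ht2 : i ∈ B := ht.2
      have h4 : A = B := by
        rw [← insert_erase hs2, ← insert_erase ht2, h3]
      subst h4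
      rfl
    · rintro ⟨A, i⟩ hs
      rw [hX, mem_filter] at hs
      refine ⟨⟨insert i A, i⟩, ?_, ?_⟩
      · rw [mem_sigma]
        exact ⟨hs.2.2, mem_insert_self _ _⟩
      · change ((insert i A).erase i, i) = (A, i)
        rw [erase_insert hs.2.1]
  have h2 : Y.card = ∑ A ∈ F, (univ \ A).card := by
    rw [← card_sigma]
    symm
    apply card_bij (fun (s : Σ _ : Finset α, α) _ => (s.1, s.2))
    · rintro ⟨A, i⟩ hs
      rw [mem_sigma, mem_sdiff] at hs
      rw [hY, mem_filter]
      exact ⟨mem_univ _, hs.2.2, hs.1⟩
    · rintro ⟨A, i⟩ _ ⟨B, j⟩ _ h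
      have h2 := (Prod.mk.inj h).2
      have h3 := (Prod.mk.inj h).1
      simp only at h2 h3
      subst h2; subst h3; rfl
    · rintro ⟨A, i⟩ hs
      rw [hY, mem_filter] at hs
      exact ⟨⟨A, i⟩, by rw [mem_sigma, mem_sdiff]; exact ⟨hs.2.2, mem_univ _, hs.2.1⟩, rfl⟩
  have h3 : X.card = (good F).card + Z.card := by
    rw [← card_union_of_disjoint]
    · congr 1
      ext p
      simp only [hX, hZ, good, mem_union, mem_filter, mem_univ, true_and]
      tauto
    · rw [disjoint_left]
      intro p hp hq
      simp only [hZ, good, mem_filter, mem_univ, true_and] at hp hq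
      exact hp.2.1 hq.2.1
  have h4 : Y.card = (bad F).card + Z.card := by
    rw [← card_union_of_disjoint]
    · congr 1
      ext p
      simp only [hY, hZ, bad, mem_union, mem_filter, mem_univ, true_and]
      tauto
    · rw [disjoint_left]
      intro p hp hq
      simp only [hZ, bad, mem_filter, mem_univ, true_and] at hp hq
      exact hp.2.2 hq.2.2
  have h5 : X.card + Y.card = Fintype.card α * F.card := by
    rw [h1, h2, ← sum_add_distrib, mul_comm, ← smul_eq_mul, ← sum_const]
    apply sum_congr rfl
    intro A _
    rw [card_sdiff_of_subset (subset_univ _), card_univ]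
    have := card_le_univ A
    omega
  rw [← h1]
  omega

/-- **The counting lemma.** If the whole set is a member, all members are nonempty and every
non-member contains at most one member, then there are more good edges than bad ones. -/
theorem bad_lt_good (F : Finset (Finset α)) (hne : ∀ A ∈ F, A.Nonempty) (hu : univ ∈ F)
    (hstar : ∀ A, A ∉ F → ∀ B ∈ F, ∀ C ∈ F, B ⊆ A → C ⊆ A → B = C) :
    (bad F).card < (good F).card := by
  classical
  let g : Finset α → Finset (Finset α × α) := fun C => (good F).filter fun p => C ⊆ p.1
  let b : Finset α → Finset α := fun C => univ.filter fun i => i ∉ C ∧ insert i C ∉ F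
  have hb : (bad F).card = ∑ C ∈ F, (b C).card := by
    rw [← card_sigma]
    symm
    apply card_bij (fun (s : Σ _ : Finset α, α) _ => (s.1, s.2))
    · rintro ⟨A, i⟩ hs
      rw [mem_sigma] at hs
      simp only [b, mem_filter, mem_univ, true_and] at hs
      simp only [bad, mem_filter, mem_univ, true_and]
      exact ⟨hs.2.1, hs.1, hs.2.2⟩
    · rintro ⟨A, i⟩ _ ⟨B, j⟩ _ h
      have h2 := (Prod.mk.inj h).2
      have h3 := (Prod.mk.inj h).1
      simp only at h2 h3
      subst h2; subst h3; rfl
    · rintro ⟨A, i⟩ hs
      simp only [bad, mem_filter, mem_univ, true_and] at hs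
      refine ⟨⟨A, i⟩, ?_, rfl⟩
      rw [mem_sigma]
      simp only [b, mem_filter, mem_univ, true_and]
      exact ⟨hs.2.1, hs.1, hs.2.2⟩
  have hbg : ∀ C ∈ F, (b C).card ≤ (g C).card := by
    intro C hC
    by_cases hCu : C = univ
    · have : b C = ∅ := by
        rw [eq_empty_iff_forall_notMem]
        intro i hi
        simp only [b, mem_filter, mem_univ, true_and] at hi
        exact hi.1 (hCu ▸ mem_univ i)
      rw [this, card_empty]
      exact Nat.zero_le _
    set D : Finset (Finset α) := univ.filter fun A => C ⊆ A ∧ (A = C ∨ A ∉ F) with hD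
    have hCD : C ∈ D := by
      rw [hD, mem_filter]; exact ⟨mem_univ _, Subset.refl _, Or.inl rfl⟩
    have hdown : ∀ A ∈ D, ∀ B, C ⊆ B → B ⊆ A → B ∈ D := by
      intro A hA B hCB hBA
      rw [hD, mem_filter] at hA ⊢
      refine ⟨mem_univ _, hCB, ?_⟩
      by_cases hBF : B ∈ F
      · left
        rcases hA.2.2 with h | h
        · exact Subset.antisymm (h ▸ hBA) hCB
        · exact hstar A h B hBF C hC hBA hA.2.1
      · exact Or.inr hBF
    have hsub : ∀ A ∈ D, C ⊆ A := by
      intro A hA
      rw [hD, mem_filter] at hA
      exact hA.2.1
    have huD : univ ∉ D := by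
      intro h
      rw [hD, mem_filter] at h
      rcases h.2.2 with h' | h'
      · exact hCu h'.symm
      · exact h' hu
    have hB := boundary_ge D C hCD hdown hsub huD
    set P := (D ×ˢ (univ : Finset α)).filter fun p => p.2 ∉ p.1 ∧ insert p.2 p.1 ∉ D with hP
    let c : Finset α := univ.filter fun i => i ∉ C ∧ insert i C ∈ F
    have hPsub : P ⊆ (c.image fun i => (C, i)) ∪ g C := by
      rintro ⟨A, i⟩ hp
      rw [hP, mem_filter, mem_product] at hp
      obtain ⟨⟨hAD, -⟩, hiA, hins⟩ := hp
      simp only at hAD hiA hins
      have hCA := hsub A hAD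
      have hinsF : insert i A ∈ F := by
        by_contra hcon
        apply hins
        rw [hD, mem_filter]
        exact ⟨mem_univ _, hCA.trans (subset_insert _ _), Or.inr hcon⟩
      rw [hD, mem_filter] at hAD
      rw [mem_union]
      by_cases hAC : A = C
      · left
        rw [mem_image]
        refine ⟨i, ?_, by rw [hAC]⟩
        simp only [c, mem_filter, mem_univ, true_and]
        rw [← hAC]
        exact ⟨hiA, hinsF⟩
      · right
        have hAF : A ∉ F := hAD.2.2.resolve_left hAC
        simp only [g, good, mem_filter, mem_univ, true_and]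
        exact ⟨⟨hiA, hAF, hinsF⟩, hCA⟩
    have h1 : P.card ≤ c.card + (g C).card := by
      refine (card_le_card hPsub).trans ((card_union_le _ _).trans ?_)
      have := card_image_le (s := c) (f := fun i => (C, i))
      omega
    have h2 : (univ \ C).card = c.card + (b C).card := by
      rw [← card_union_of_disjoint]
      · congr 1
        ext i
        simp only [b, c, mem_union, mem_filter, mem_univ, true_and, mem_sdiff]
        tauto
      · rw [disjoint_left]
        intro i hi hj
        simp only [b, c, mem_filter, mem_univ, true_and] at hi hj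
        exact hj.2 hi.2
    omega
  have hdisj : (F : Set (Finset α)).PairwiseDisjoint g := by
    intro C hC C' hC' hCC
    rw [Function.onFun, disjoint_left]
    intro p hp hq
    simp only [g, good, mem_filter, mem_univ, true_and] at hp hq
    exact hCC (hstar p.1 hp.1.2.1 C hC C' hC' hp.2 hq.2)
  obtain ⟨A₀, hA₀, hmin⟩ := exists_min_image F (fun A => A.card) ⟨univ, hu⟩
  obtain ⟨i, hi⟩ := hne A₀ hA₀
  have hlt : (A₀.erase i).card < A₀.card := card_erase_lt_of_mem hi
  have hnot : ∀ C ∈ F, ¬ C ⊆ A₀.erase i := by
    intro C hC hsub
    have h1 := hmin C hC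
    have h2 := card_le_card hsub
    omega
  have he₀ : ((A₀.erase i, i) : Finset α × α) ∈ good F := by
    simp only [good, mem_filter, mem_univ, true_and]
    refine ⟨notMem_erase _ _, fun h => hnot _ h (Subset.refl _), ?_⟩
    rw [insert_erase hi]
    exact hA₀
  have he₁ : ((A₀.erase i, i) : Finset α × α) ∉ F.biUnion g := by
    rw [mem_biUnion]
    rintro ⟨C, hC, h⟩
    simp only [g, mem_filter] at h
    exact hnot C hC h.2
  have hsub : insert ((A₀.erase i, i) : Finset α × α) (F.biUnion g) ⊆ good F := by
    apply insert_subset he₀
    intro p hp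
    rw [mem_biUnion] at hp
    obtain ⟨C, -, h⟩ := hp
    exact (mem_filter.mp h).1
  have h1 := card_le_card hsub
  rw [card_insert_of_notMem he₁, card_biUnion (fun C hC C' hC' h => hdisj hC hC' h)] at h1
  rw [hb]
  have h2 := sum_le_sum hbg
  omega

/-- In a family of density at most two, every non-member contains at most one member. -/
theorem star_of_density {F : Finset (Finset α)} (hF : IsUnionClosedOver F)
    (hd : density F ≤ 2) :
    ∀ A, A ∉ F → ∀ B ∈ F, ∀ C ∈ F, B ⊆ A → C ⊆ A → B = C := by
  classical
  have hmem : {k | EquivalentToFrankl.closure^[k] F = univ.filter fun A : Finset α => A.Nonempty}.Nonempty := by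
    refine ⟨Fintype.card α, ?_⟩
    rw [Set.mem_ofPred_eq]
    ext A
    rw [mem_filter]
    constructor
    · intro hA
      exact ⟨mem_univ _, (iter_unionClosed hF _).1 A hA⟩
    · rintro ⟨-, hA⟩
      exact mem_iter_of_card hF _ A hA (by omega)
  have hdm := Nat.sInf_mem hmem
  have hdm' : EquivalentToFrankl.closure^[density F] F = univ.filter fun A : Finset α => A.Nonempty := hdm
  have hmono : ∀ j k, j ≤ k → EquivalentToFrankl.closure^[j] F ⊆ EquivalentToFrankl.closure^[k] F := by
    intro j k hjk
    induction k, hjk using Nat.le_induction with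
    | base => exact Subset.refl _
    | succ k _ ih => exact ih.trans (iter_mono hF k)
  have h2 : ∀ A : Finset α, A.Nonempty → A ∈ EquivalentToFrankl.closure (EquivalentToFrankl.closure F) := by
    intro A hA
    have h3 : A ∈ EquivalentToFrankl.closure^[density F] F := by
      rw [hdm', mem_filter]; exact ⟨mem_univ _, hA⟩
    exact hmono _ _ hd h3
  have hU := closure_unionClosed hF
  have hup : ∀ A ∈ EquivalentToFrankl.closure F, ∀ B, A ⊆ B → B ∈ EquivalentToFrankl.closure F := by
    intro A hA B hAB
    by_cases hBA : B = A
    · rw [hBA]; exact hA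
    have hne : (B \ A).Nonempty := by
      rw [sdiff_nonempty]
      exact fun h => hBA (Subset.antisymm h hAB)
    rcases ((mem_closure hU).mp (h2 _ hne)).2 A hA with h | h
    · exfalso
      obtain ⟨a, ha⟩ := hU.1 A hA
      have h4 : a ∈ B \ A := h ▸ mem_union_right _ ha
      exact (mem_sdiff.mp h4).2 ha
    · rwa [sdiff_union_of_subset hAB] at h
  have key : ∀ A, A ∉ F → ∀ B ∈ F, ∀ C ∈ F, B ⊆ A → C ⊆ A → B ⊆ C := by
    intro A hA B hB C hC hBA hCA b hb
    by_contra hbC
    have h5 : A.erase b ∈ EquivalentToFrankl.closure F := by
      apply hup C (subset_closure hF hC)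
      intro c hc
      exact mem_erase.mpr ⟨fun h => hbC (h ▸ hc), hCA hc⟩
    have h6 : A.erase b ∪ B = A := by
      apply Subset.antisymm (union_subset (erase_subset _ _) hBA)
      intro a ha
      by_cases hab : a = b
      · rw [hab]; exact mem_union_right _ hb
      · exact mem_union_left _ (mem_erase.mpr ⟨hab, ha⟩)
    rcases ((mem_closure hF).mp h5).2 B hB with h | h
    · rw [h6] at h
      have h7 : b ∈ A := hBA hb
      rw [h] at h7
      exact notMem_erase _ _ h7
    · rw [h6] at h
      exact hA h
  intro A hA B hB C hC hBA hCA
  exact Subset.antisymm (key A hA B hB C hC hBA hCA) (key A hA C hC B hB hCA hBA)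

/-- In a family of density at most two, the average size of a member exceeds half of the size of
the ground set. -/
theorem average {F : Finset (Finset α)} (hF : IsUnionClosedOver F) (hd : density F ≤ 2) :
    Fintype.card α * F.card < 2 * ∑ A ∈ F, A.card := by
  have h1 := bad_lt_good F hF.1 hF.2.1 (star_of_density hF hd)
  have h2 := sum_card_eq F
  omega

/-- In a family of density at most two some element lies in more than half of the members. -/
theorem popular {F : Finset (Finset α)} (hF : IsUnionClosedOver F) (hd : density F ≤ 2) :
    ∃ i : α, F.card < 2 * (F.filter fun A => i ∈ A).card := by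
  classical
  by_contra hcon
  push Not at hcon
  have h1 := average hF hd
  have h2 : ∑ A ∈ F, A.card = ∑ i : α, (F.filter fun A => i ∈ A).card := by
    have h3 : ∀ A ∈ F, A.card = ∑ i : α, if i ∈ A then 1 else 0 := by
      intro A _
      rw [sum_ite_mem, univ_inter, sum_const, smul_eq_mul, mul_one]
    rw [sum_congr rfl h3, sum_comm]
    apply sum_congr rfl
    intro i _
    rw [card_filter]
  rw [h2, mul_sum] at h1
  have h4 : ∑ i : α, 2 * (F.filter fun A => i ∈ A).card ≤ ∑ _i : α, F.card :=
    sum_le_sum fun i _ => hcon i
  rw [sum_const, smul_eq_mul, card_univ] at h4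
  omega

end General

section Sharp

variable {α : Type} [Fintype α] [DecidableEq α]

/-- The family `{a}, {b}, {a, b}`, whole set. -/
def four (a b : α) : Finset (Finset α) := {{a}, {b}, {a, b}, univ}

theorem mem_four {a b : α} {A : Finset α} :
    A ∈ four a b ↔ A = {a} ∨ A = {b} ∨ A = {a, b} ∨ A = univ := by
  simp [four]

theorem four_union {a b : α} : IsUnionClosedOver (four a b) := by
  refine ⟨?_, mem_four.mpr (Or.inr (Or.inr (Or.inr rfl))), ?_⟩
  · intro A hA
    rcases mem_four.mp hA with rfl | rfl | rfl | rfl
    · exact singleton_nonempty a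
    · exact singleton_nonempty b
    · exact insert_nonempty _ _
    · exact ⟨a, mem_univ a⟩
  · intro A hA B hB
    rw [mem_four] at hA hB ⊢
    rcases hA with rfl | rfl | rfl | rfl <;> rcases hB with rfl | rfl | rfl | rfl
    · left; simp
    · right; right; left; rfl
    · right; right; left; ext x; simp
    · right; right; right; simp
    · right; right; left; ext x; simp [or_comm]
    · right; left; simp
    · right; right; left; ext x; simp
    · right; right; right; simp
    · right; right; left; ext x; simp [or_comm]
    · right; right; left; ext x; simp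
    · right; right; left; simp
    · right; right; right; simp
    · right; right; right; simp
    · right; right; right; simp
    · right; right; right; simp
    · right; right; right; simp

theorem four_density {a b : α} (hab : a ≠ b) :
    EquivalentToFrankl.closure^[3] (four a b) =
      univ.filter fun A : Finset α => A.Nonempty := by
  classical
  set F := four a b with hFd
  have hF : IsUnionClosedOver F := four_union
  set F1 := EquivalentToFrankl.closure F with hF1d
  have hF1 : IsUnionClosedOver F1 := closure_unionClosed hF
  set F2 := EquivalentToFrankl.closure F1 with hF2d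
  have hF2 : IsUnionClosedOver F2 := closure_unionClosed hF1
  -- lower information on `F1`
  have l1 : ∀ A, a ∈ A → b ∈ A → A ∈ F1 := by
    intro A ha hb
    rw [hF1d, mem_closure hF]
    refine ⟨⟨a, ha⟩, fun B hB => ?_⟩
    rcases mem_four.mp hB with rfl | rfl | rfl | rfl
    · left; exact union_eq_left.mpr (singleton_subset_iff.mpr ha)
    · left; exact union_eq_left.mpr (singleton_subset_iff.mpr hb)
    · left
      exact union_eq_left.mpr (insert_subset ha (singleton_subset_iff.mpr hb))
    · right; rw [hFd, mem_four]; right; right; right; simp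
  have l2 : univ.erase a ∈ F1 := by
    rw [hF1d, mem_closure hF]
    have hb : b ∈ univ.erase a := mem_erase.mpr ⟨hab.symm, mem_univ _⟩
    refine ⟨⟨b, hb⟩, fun B hB => ?_⟩
    by_cases haB : a ∈ B
    · right
      have : univ.erase a ∪ B = univ := by
        rw [eq_univ_iff_forall]
        intro x
        by_cases hx : x = a
        · rw [hx]; exact mem_union_right _ haB
        · exact mem_union_left _ (mem_erase.mpr ⟨hx, mem_univ _⟩)
      rw [this]; exact hF.2.1
    · left
      apply union_eq_left.mpr
      intro x hx
      exact mem_erase.mpr ⟨fun h => haB (h ▸ hx), mem_univ _⟩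
  have l3 : univ.erase b ∈ F1 := by
    rw [hF1d, mem_closure hF]
    have ha : a ∈ univ.erase b := mem_erase.mpr ⟨hab, mem_univ _⟩
    refine ⟨⟨a, ha⟩, fun B hB => ?_⟩
    by_cases hbB : b ∈ B
    · right
      have : univ.erase b ∪ B = univ := by
        rw [eq_univ_iff_forall]
        intro x
        by_cases hx : x = b
        · rw [hx]; exact mem_union_right _ hbB
        · exact mem_union_left _ (mem_erase.mpr ⟨hx, mem_univ _⟩)
      rw [this]; exact hF.2.1
    · left
      apply union_eq_left.mpr
      intro x hx
      exact mem_erase.mpr ⟨fun h => hbB (h ▸ hx), mem_univ _⟩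
  -- upper information on `F1`
  have u1 : ∀ A ∈ F1, b ∉ A → A = {a} ∨ A = univ.erase b := by
    intro A hA hb
    rw [hF1d, mem_closure hF] at hA
    have hbF : ({b} : Finset α) ∈ F := by rw [hFd, mem_four]; right; left; rfl
    rcases hA.2 {b} hbF with h | h
    · exfalso
      apply hb
      rw [← h]
      exact mem_union_right _ (mem_singleton_self b)
    · have hAe : A = (A ∪ {b}).erase b := by
        ext x
        rw [mem_erase, mem_union, mem_singleton]
        constructor
        · intro hx
          exact ⟨fun h => hb (h ▸ hx), Or.inl hx⟩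
        · rintro ⟨h1, h2 | h2⟩
          · exact h2
          · exact absurd h2 h1
      have hbA : b ∈ A ∪ {b} := mem_union_right _ (mem_singleton_self b)
      rcases mem_four.mp h with h' | h' | h' | h'
      · rw [h', mem_singleton] at hbA
        exact absurd hbA.symm hab
      · exfalso
        rw [h'] at hAe
        obtain ⟨x, hx⟩ := hA.1
        rw [hAe, mem_erase, mem_singleton] at hx
        exact hx.1 hx.2
      · left
        rw [h'] at hAe
        rw [hAe]
        ext x
        rw [mem_erase, mem_insert, mem_singleton, mem_singleton]
        constructor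
        · rintro ⟨h1, h2 | h2⟩
          · exact h2
          · exact absurd h2 h1
        · intro h1
          exact ⟨fun h2 => hab (h1.symm.trans h2), Or.inl h1⟩
      · right
        rw [h'] at hAe
        exact hAe
  have u2 : ∀ A ∈ F1, a ∉ A → A = {b} ∨ A = univ.erase a := by
    intro A hA ha
    rw [hF1d, mem_closure hF] at hA
    have haF : ({a} : Finset α) ∈ F := by rw [hFd, mem_four]; left; rfl
    rcases hA.2 {a} haF with h | h
    · exfalso
      apply ha
      rw [← h]
      exact mem_union_right _ (mem_singleton_self a)
    · have hAe : A = (A ∪ {a}).erase a := by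
        ext x
        rw [mem_erase, mem_union, mem_singleton]
        constructor
        · intro hx
          exact ⟨fun h => ha (h ▸ hx), Or.inl hx⟩
        · rintro ⟨h1, h2 | h2⟩
          · exact h2
          · exact absurd h2 h1
      have haA : a ∈ A ∪ {a} := mem_union_right _ (mem_singleton_self a)
      rcases mem_four.mp h with h' | h' | h' | h'
      · exfalso
        rw [h'] at hAe
        obtain ⟨x, hx⟩ := hA.1
        rw [hAe, mem_erase, mem_singleton] at hx
        exact hx.1 hx.2
      · rw [h', mem_singleton] at haA
        exact absurd haA hab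
      · left
        rw [h'] at hAe
        rw [hAe]
        ext x
        simp only [mem_erase, mem_insert, mem_singleton]
        constructor
        · rintro ⟨h1, h2 | h2⟩
          · exact absurd h2 h1
          · exact h2
        · intro h1
          exact ⟨fun h2 => hab (h2.symm.trans h1), Or.inr h1⟩
      · right
        rw [h'] at hAe
        exact hAe
  have haF1 : ({a} : Finset α) ∈ F1 :=
    subset_closure hF (mem_four.mpr (Or.inl rfl))
  have hbF1 : ({b} : Finset α) ∈ F1 :=
    subset_closure hF (mem_four.mpr (Or.inr (Or.inl rfl)))
  -- lower information on `F2`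
  have m1 : ∀ A, a ∈ A → b ∉ A → A ∈ F2 := by
    intro A ha hb
    rw [hF2d, mem_closure hF1]
    refine ⟨⟨a, ha⟩, fun B hB => ?_⟩
    by_cases hbB : b ∈ B
    · right
      exact l1 _ (mem_union_left _ ha) (mem_union_right _ hbB)
    · rcases u1 B hB hbB with rfl | rfl
      · left; exact union_eq_left.mpr (singleton_subset_iff.mpr ha)
      · right
        have : A ∪ univ.erase b = univ.erase b := by
          apply union_eq_right.mpr
          intro x hx
          exact mem_erase.mpr ⟨fun h => hb (h ▸ hx), mem_univ _⟩
        rw [this]; exact l3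
  have m2 : ∀ A, b ∈ A → a ∉ A → A ∈ F2 := by
    intro A hb ha
    rw [hF2d, mem_closure hF1]
    refine ⟨⟨b, hb⟩, fun B hB => ?_⟩
    by_cases haB : a ∈ B
    · right
      exact l1 _ (mem_union_right _ haB) (mem_union_left _ hb)
    · rcases u2 B hB haB with rfl | rfl
      · left; exact union_eq_left.mpr (singleton_subset_iff.mpr hb)
      · right
        have : A ∪ univ.erase a = univ.erase a := by
          apply union_eq_right.mpr
          intro x hx
          exact mem_erase.mpr ⟨fun h => ha (h ▸ hx), mem_univ _⟩
        rw [this]; exact l2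
  have m : ∀ A, (a ∈ A ∨ b ∈ A) → A ∈ F2 := by
    intro A h
    by_cases ha : a ∈ A
    · by_cases hb : b ∈ A
      · exact subset_closure hF1 (l1 A ha hb)
      · exact m1 A ha hb
    · exact m2 A (h.resolve_left ha) ha
  -- upper information on `F2`
  have u3 : ∀ A ∈ F2, a ∉ A → b ∉ A → A = (univ.erase b).erase a := by
    intro A hA ha hb
    rw [hF2d, mem_closure hF1] at hA
    have h0 : b ∉ A ∪ {a} := by
      rw [mem_union, mem_singleton]
      rintro (h | h)
      · exact hb h
      · exact hab h.symm
    have hAe : A = (A ∪ {a}).erase a := by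
      ext x
      rw [mem_erase, mem_union, mem_singleton]
      constructor
      · intro hx
        exact ⟨fun h => ha (h ▸ hx), Or.inl hx⟩
      · rintro ⟨h1, h2 | h2⟩
        · exact h2
        · exact absurd h2 h1
    rcases hA.2 {a} haF1 with h | h
    · exfalso
      apply ha
      rw [← h]
      exact mem_union_right _ (mem_singleton_self a)
    · rcases u1 _ h h0 with h' | h'
      · exfalso
        rw [h'] at hAe
        obtain ⟨x, hx⟩ := hA.1
        rw [hAe, mem_erase, mem_singleton] at hx
        exact hx.1 hx.2
      · rw [h'] at hAe
        exact hAe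
  -- all nonempty sets are in the third closure
  have hall : ∀ A : Finset α, A.Nonempty → A ∈ EquivalentToFrankl.closure F2 := by
    intro A hA
    rw [mem_closure hF2]
    refine ⟨hA, fun B hB => ?_⟩
    by_cases hmeet : a ∈ A ∪ B ∨ b ∈ A ∪ B
    · exact Or.inr (m _ hmeet)
    · right
      rw [not_or] at hmeet
      have haB : a ∉ B := fun h => hmeet.1 (mem_union_right _ h)
      have hbB : b ∉ B := fun h => hmeet.2 (mem_union_right _ h)
      have hBe := u3 B hB haB hbB
      have : A ∪ B = B := by
        apply union_eq_right.mpr
        intro x hx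
        rw [hBe, mem_erase, mem_erase]
        refine ⟨?_, ?_, mem_univ _⟩
        · rintro rfl; exact hmeet.1 (mem_union_left _ hx)
        · rintro rfl; exact hmeet.2 (mem_union_left _ hx)
      rw [this]; exact hB
  change EquivalentToFrankl.closure F2 = _
  ext A
  rw [mem_filter]
  constructor
  · intro hA
    exact ⟨mem_univ _, (closure_unionClosed hF2).1 A hA⟩
  · rintro ⟨-, hA⟩
    exact hall A hA

end Sharp

/-- **Theorem.** (1) Every union-closed family over `[n]` of density at most two has average member
size larger than `n / 2`, and some element lies in more than half of its members. (2) If `H` is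
such a family over `[m]`, then `H` together with the whole set `[m + 2]` is an `(m + 1)`-dense
union-closed family over `[m + 2]` and satisfies the half condition, so Q1 holds for it.
(3) For every `n ≥ 5` there is a family of density three over `[n]` whose average member size is
smaller than `n / 2`. -/
theorem result :
    (∀ (n : ℕ) (F : Finset (Finset (Fin n))), IsUnionClosedOver F → density F ≤ 2 →
      n * F.card < 2 * ∑ A ∈ F, A.card ∧
      ∃ i : Fin n, F.card < 2 * (F.filter fun A => i ∈ A).card) ∧
    (∀ (m : ℕ) (H : Finset (Finset (Fin m))), IsUnionClosedOver H → density H ≤ 2 →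
      ∀ F : Finset (Finset (Fin (m + 2))),
        F = insert univ (H.image fun A => A.map (Fin.castAddEmb 2)) →
        IsUnionClosedOver F ∧ density F = (m + 2) - 1 ∧ HalfCondition F) ∧
    (∀ n : ℕ, 5 ≤ n → ∃ F : Finset (Finset (Fin n)),
      IsUnionClosedOver F ∧ density F = 3 ∧ 2 * ∑ A ∈ F, A.card < n * F.card) := by
  classical
  refine ⟨?_, ?_, ?_⟩
  · intro n F hF hd
    refine ⟨?_, popular hF hd⟩
    have h := average hF hd
    rwa [Fintype.card_fin] at h
  · intro m H hH hd F hFe
    set ι : Fin m ↪ Fin (m + 2) := Fin.castAddEmb 2 with hι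
    let p : Fin (m + 2) := Fin.natAdd m 0
    let q : Fin (m + 2) := Fin.natAdd m 1
    have hpq : p ≠ q := by
      intro h
      have := congrArg Fin.val h
      simp [p, q] at this
    have hιv : ∀ x, (ι x : ℕ) = x := fun x => rfl
    have hιp : ∀ x, ι x ≠ p := by
      intro x h
      have h1 := x.isLt
      have h2 := congrArg Fin.val h
      rw [hιv] at h2
      simp only [p, Fin.val_natAdd] at h2
      omega
    have hιq : ∀ x, ι x ≠ q := by
      intro x h
      have h1 := x.isLt
      have h2 := congrArg Fin.val h
      rw [hιv] at h2
      simp only [q, Fin.val_natAdd] at h2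
      omega
    set K := H.image fun A => A.map ι with hK
    have hinj : Function.Injective fun A : Finset (Fin m) => A.map ι := map_injective ι
    have h := density_insert_univ (H := K) (p := p) (q := q) hpq
      (by
        intro A hA
        obtain ⟨B, hB, rfl⟩ := mem_image.mp hA
        exact (hH.1 B hB).map)
      (by
        intro A hA B hB
        obtain ⟨A', hA', rfl⟩ := mem_image.mp hA
        obtain ⟨B', hB', rfl⟩ := mem_image.mp hB
        refine mem_image.mpr ⟨A' ∪ B', hH.2.2 A' hA' B' hB', ?_⟩
        exact map_union A' B')
      (by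
        intro A hA
        obtain ⟨B, hB, rfl⟩ := mem_image.mp hA
        intro h
        obtain ⟨x, -, hx⟩ := mem_map.mp h
        exact hιp x hx)
      (by
        intro A hA
        obtain ⟨B, hB, rfl⟩ := mem_image.mp hA
        intro h
        obtain ⟨x, -, hx⟩ := mem_map.mp h
        exact hιq x hx)
      (by
        refine mem_image.mpr ⟨univ, hH.2.1, ?_⟩
        ext y
        rw [mem_map, mem_sdiff, mem_insert, mem_singleton]
        constructor
        · rintro ⟨x, -, rfl⟩
          refine ⟨mem_univ _, ?_⟩
          rintro (h | h)
          · exact hιp x h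
          · exact hιq x h
        · rintro ⟨-, hy⟩
          have hy' : (y : ℕ) < m := by
            by_contra hge
            push Not at hge
            have h2 := y.isLt
            apply hy
            rcases Nat.lt_or_ge (y : ℕ) (m + 1) with h3 | h3
            · left
              apply Fin.ext
              simp only [p, Fin.val_natAdd]
              change (y : ℕ) = m + 0
              omega
            · right
              apply Fin.ext
              simp only [q, Fin.val_natAdd]
              change (y : ℕ) = m + 1
              omega
          exact ⟨⟨y, hy'⟩, mem_univ _, Fin.ext rfl⟩)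
    rw [← hFe] at h
    refine ⟨h.1, ?_, ?_⟩
    · have h2 := h.2
      rwa [Fintype.card_fin] at h2
    · obtain ⟨i, hi⟩ := popular hH hd
      refine ⟨ι i, ?_⟩
      have hnot : (univ : Finset (Fin (m + 2))) ∉ K := by
        intro hu
        obtain ⟨B, -, hB⟩ := mem_image.mp hu
        have hp : p ∈ B.map ι := by
          have h4 : B.map ι = univ := hB
          rw [h4]; exact mem_univ _
        obtain ⟨x, -, hx⟩ := mem_map.mp hp
        exact hιp x hx
      have hc : F.card = H.card + 1 := by
        rw [hFe, card_insert_of_notMem hnot, hK, card_image_of_injective _ hinj]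
      have hsub : (H.filter fun A => i ∈ A).image (fun A => A.map ι) ⊆
          F.filter fun A => ι i ∈ A := by
        intro A hA
        obtain ⟨B, hB, rfl⟩ := mem_image.mp hA
        rw [mem_filter] at hB ⊢
        refine ⟨?_, mem_map_of_mem _ hB.2⟩
        rw [hFe]
        exact mem_insert_of_mem (mem_image_of_mem _ hB.1)
      have h5 := card_le_card hsub
      rw [card_image_of_injective _ hinj] at h5
      rw [hc]
      omega
  · intro n hn
    let a : Fin n := ⟨0, by omega⟩
    let b : Fin n := ⟨1, by omega⟩
    have hab : a ≠ b := by
      intro h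
      have := congrArg Fin.val h
      simp [a, b] at this
    have hF : IsUnionClosedOver (four a b) := four_union
    -- cardinalities
    have hn1 : ({a} : Finset (Fin n)) ∉ ({{b}, {a, b}, univ} : Finset (Finset (Fin n))) := by
      rw [mem_insert, mem_insert, mem_singleton, not_or, not_or]
      refine ⟨fun h => hab (singleton_injective h), ?_, ?_⟩
      · intro h
        have h1 : b ∈ ({a} : Finset (Fin n)) := by rw [h]; simp
        exact hab (mem_singleton.mp h1).symm
      · intro h
        have h1 : b ∈ ({a} : Finset (Fin n)) := by rw [h]; exact mem_univ _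
        exact hab (mem_singleton.mp h1).symm
    have hn2 : ({b} : Finset (Fin n)) ∉ ({{a, b}, univ} : Finset (Finset (Fin n))) := by
      rw [mem_insert, mem_singleton, not_or]
      refine ⟨?_, ?_⟩
      · intro h
        have h1 : a ∈ ({b} : Finset (Fin n)) := by rw [h]; simp
        exact hab (mem_singleton.mp h1)
      · intro h
        have h1 : a ∈ ({b} : Finset (Fin n)) := by rw [h]; exact mem_univ _
        exact hab (mem_singleton.mp h1)
    have hn3 : ({a, b} : Finset (Fin n)) ∉ ({univ} : Finset (Finset (Fin n))) := by
      rw [mem_singleton]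
      intro h
      have h1 : ({a, b} : Finset (Fin n)).card = n := by
        rw [h, card_univ, Fintype.card_fin]
      rw [card_pair hab] at h1
      omega
    have hcard : (four a b).card = 4 := by
      rw [four, card_insert_of_notMem hn1, card_insert_of_notMem hn2,
        card_insert_of_notMem hn3, card_singleton]
    have hsum : ∑ A ∈ four a b, A.card = n + 4 := by
      rw [four, sum_insert hn1, sum_insert hn2, sum_insert hn3, sum_singleton, card_singleton,
        card_singleton, card_pair hab, card_univ, Fintype.card_fin]
      omega
    refine ⟨four a b, hF, ?_, ?_⟩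
    · have h3 := four_density hab
      have h5 : density (four a b) ≤ 3 := Nat.sInf_le h3
      apply le_antisymm h5
      by_contra hlt
      have h6 : density (four a b) ≤ 2 := by omega
      have h4 := average hF h6
      rw [hcard, hsum, Fintype.card_fin] at h4
      omega
    · rw [hcard, hsum]
      omega

end Pool.Agent.Results.MP_848b0a_co.TwoDense
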